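import Mathlib

/-! Separation lemma for the half-parallel theorem (two families of convex sets in `ℝ³`, the members
of one of them in parallel planes). -/

open Set Finset Module
open scoped BigOperators

namespace Pool.Agent.HPL99

/-- If no point `p` of the parameter space is sent by every `L j` into the polytope
`convexHull (z · j)`, at most `finrank P + 1` of the polytopes are separated by linear functionals
in equilibrium. -/
theorem core {P H : Type*} [AddCommGroup P] [Module ℝ P] [FiniteDimensional ℝ P]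
    [NormedAddCommGroup H] [NormedSpace ℝ H] [FiniteDimensional ℝ H]
    {I J : Type*} [Finite I] [Fintype J] (L : J → P →ₗ[ℝ] H) (z : I → J → H)
    (hno : ¬ ∃ p : P, ∀ j, L j p ∈ convexHull ℝ (range fun i => z i j)) :
    ∃ (F : Finset J) (u : J → (H →L[ℝ] ℝ)), F.card ≤ finrank ℝ P + 1 ∧
      (∀ p : P, ∑ j ∈ F, u j (L j p) = 0) ∧
      ∀ c : J → I, 0 < ∑ j ∈ F, u j (z (c j) j) := by
  classical
  -- Helly
  have h5 : ∃ F : Finset J, F.card ≤ finrank ℝ P + 1 ∧
      ¬ (⋂ j ∈ F, {p : P | L j p ∈ convexHull ℝ (range fun i => z i j)}).Nonempty := by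
    by_contra hcon
    push Not at hcon
    apply hno
    have := Convex.helly_theorem' (𝕜 := ℝ) (E := P) (s := (Finset.univ : Finset J))
      (F := fun j => {p : P | L j p ∈ convexHull ℝ (range fun i => z i j)})
      (fun j _ => (convex_convexHull ℝ _).linear_preimage (L j))
      (fun F _ hF => hcon F hF)
    obtain ⟨p, hp⟩ := this
    refine ⟨p, fun j => ?_⟩
    simp only [Set.mem_iInter] at hp
    exact hp j (Finset.mem_univ j)
  obtain ⟨F, hF, hne⟩ := h5
  -- separation in `F → H`
  set K : Set (F → H) := Set.univ.pi fun j => convexHull ℝ (range fun i => z i j.1) with hK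
  set ℓ : P →ₗ[ℝ] (F → H) := LinearMap.pi fun j => L j.1 with hℓ
  set W : Submodule ℝ (F → H) := LinearMap.range ℓ with hW
  have hKc : Convex ℝ K := convex_pi fun j _ => convex_convexHull ℝ _
  have hKcomp : IsCompact K := isCompact_univ_pi fun j =>
    (Set.finite_range fun i => z i j.1).isCompact_convexHull (𝕜 := ℝ)
  have hWc : Convex ℝ (W : Set (F → H)) := W.convex
  have hWcl : IsClosed (W : Set (F → H)) := W.closed_of_finiteDimensional
  have hdisj : Disjoint (W : Set (F → H)) K := by
    rw [Set.disjoint_left]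
    rintro x ⟨p, rfl⟩ hx
    apply hne
    refine ⟨p, ?_⟩
    simp only [Set.mem_iInter]
    intro j hj
    exact hx ⟨j, hj⟩ (Set.mem_univ _)
  obtain ⟨f, a, b, hfa, hab, hfb⟩ := geometric_hahn_banach_closed_compact hWc hWcl hKc hKcomp hdisj
  -- `f` vanishes on `W`
  have hfW : ∀ p : P, f (ℓ p) = 0 := by
    intro p
    by_contra hne0
    have h1 : ∀ t : ℝ, t * f (ℓ p) < a := by
      intro t
      have := hfa (ℓ (t • p)) ⟨_, rfl⟩
      rw [map_smul, map_smul, smul_eq_mul] at this
      exact this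
    have h2 := h1 ((|a| + 1) / f (ℓ p))
    rw [div_mul_cancel₀ _ hne0] at h2
    have := le_abs_self a
    linarith
  have ha0 : 0 < a := by
    have := hfa (ℓ 0) ⟨_, rfl⟩
    rw [hfW] at this
    exact this
  have hsplit : ∀ g : J → H, f (fun j : F => g j.1)
      = ∑ j ∈ F, (if h : j ∈ F then f.comp (ContinuousLinearMap.single ℝ (fun _ : F => H) ⟨j, h⟩)
          else 0) (g j) := by
    intro g
    rw [← Finset.sum_attach F]
    have h1 : (fun j : F => g j.1) = ∑ j : F, Pi.single j (g j.1) := by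
      ext j
      simp [Finset.sum_apply, Pi.single_apply]
    rw [h1, map_sum]
    apply Finset.sum_congr rfl
    intro j _
    simp
  refine ⟨F, fun j => if h : j ∈ F then
    f.comp (ContinuousLinearMap.single ℝ (fun _ : F => H) ⟨j, h⟩) else 0, hF, ?_, ?_⟩
  · intro p
    rw [← hsplit (fun j => L j p)]
    exact hfW p
  · intro c
    rw [← hsplit (fun j => z (c j) j)]
    have h3 := hfb (fun j : F => z (c j) j.1) (fun j _ => subset_convexHull ℝ _ ⟨c j, rfl⟩)
    linarith

/-- The same with the minima. -/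
theorem core_min {P H : Type*} [AddCommGroup P] [Module ℝ P] [FiniteDimensional ℝ P]
    [NormedAddCommGroup H] [NormedSpace ℝ H] [FiniteDimensional ℝ H]
    {I J : Type*} [Finite I] [Nonempty I] [Fintype J] (L : J → P →ₗ[ℝ] H) (z : I → J → H)
    (hno : ¬ ∃ p : P, ∀ j, L j p ∈ convexHull ℝ (range fun i => z i j)) :
    ∃ (F : Finset J) (u : J → (H →L[ℝ] ℝ)) (μ : J → ℝ), F.card ≤ finrank ℝ P + 1 ∧
      (∀ p : P, ∑ j ∈ F, u j (L j p) = 0) ∧ (∀ i j, μ j ≤ u j (z i j)) ∧
      0 < ∑ j ∈ F, μ j := by
  obtain ⟨F, u, h1, h2, h3⟩ := core L z hno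
  have : ∀ j, ∃ i0, ∀ i, u j (z i0 j) ≤ u j (z i j) := fun j =>
    Finite.exists_min fun i => u j (z i j)
  choose c hc using this
  exact ⟨F, u, fun j => u j (z (c j) j), h1, h2, fun i j => hc j i, h3 c⟩

end Pool.Agent.HPL99
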