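import Pool.Agent.HPL99.Core

/-! Two families of convex sets in `ℝ³` with all cross pairs intersecting, the members of one of
them in parallel planes: either one line meets all the planar ones, or three lines meet all the
others. -/

namespace Pool.Agent.HPL99

open Module Set Finset
open scoped BigOperators

noncomputable section

/-- Three-dimensional space. -/
abbrev E3 := EuclideanSpace ℝ (Fin 3)

/-- The linear functional `x ↦ ⟨a, x⟩`. -/
def phi (a : E3) : E3 →ₗ[ℝ] ℝ := (innerSL ℝ a).toLinearMap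

theorem phi_apply (a x : E3) : phi a x = inner ℝ a x := rfl

theorem finrank_ker_phi {a : E3} (ha : a ≠ 0) : finrank ℝ (LinearMap.ker (phi a)) = 2 := by
  have h1 := LinearMap.finrank_range_add_finrank_ker (phi a)
  have h2 : finrank ℝ E3 = 3 := by simp [E3]
  have h3 : LinearMap.range (phi a) = ⊤ := by
    rw [LinearMap.range_eq_top]
    apply LinearMap.surjective
    intro h
    have h4 : phi a a = 0 := by rw [h]; simp
    rw [phi_apply, real_inner_self_eq_norm_sq] at h4
    exact ha (norm_eq_zero.mp (pow_eq_zero_iff (two_ne_zero) |>.mp h4))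
  rw [h3, finrank_top, h2, finrank_self] at h1
  omega

/-- Kernel of a nonzero functional on a plane: spanned by one vector. -/
theorem exists_dir {W : Submodule ℝ E3} (hW : finrank ℝ W = 2) (f : E3 →ₗ[ℝ] ℝ)
    (hf : ∃ w ∈ W, f w ≠ 0) :
    ∃ d ∈ W, d ≠ 0 ∧ f d = 0 ∧ ∀ v ∈ W, f v = 0 → ∃ c : ℝ, c • d = v := by
  set g : W →ₗ[ℝ] ℝ := f.comp W.subtype with hg
  have h1 := LinearMap.finrank_range_add_finrank_ker g
  have h3 : LinearMap.range g = ⊤ := by
    rw [LinearMap.range_eq_top]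
    apply LinearMap.surjective
    intro h
    obtain ⟨w, hw, hfw⟩ := hf
    apply hfw
    have : g ⟨w, hw⟩ = 0 := by rw [h]; simp
    simpa [hg] using this
  rw [h3, finrank_top, hW, finrank_self] at h1
  have h4 : finrank ℝ (LinearMap.ker g) = 1 := by omega
  obtain ⟨v, hv, hspan⟩ := finrank_eq_one_iff'.mp h4
  refine ⟨((v : W) : E3), (v : W).2, ?_, ?_, ?_⟩
  · intro h
    apply hv
    ext1
    ext1
    simpa using h
  · have h5 : g (v : W) = 0 := LinearMap.mem_ker.mp v.2
    exact h5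
  · intro u hu hfu
    have hmem : (⟨u, hu⟩ : W) ∈ LinearMap.ker g := by
      rw [LinearMap.mem_ker]
      simpa [hg] using hfu
    obtain ⟨c, hc⟩ := hspan ⟨⟨u, hu⟩, hmem⟩
    refine ⟨c, ?_⟩
    have := congrArg (fun t : LinearMap.ker g => ((t : W) : E3)) hc
    simpa using this

/-- Crossing point of a segment with a level set. -/
theorem crossing {a : E3} {σ : ℝ} (f : E3 →L[ℝ] ℝ) {ν : ℝ} {y y' : E3}
    (hy : inner ℝ a y = σ) (hy' : inner ℝ a y' = σ) (h1 : f y < ν) (h2 : ν ≤ f y')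
    {A : Set E3} (hA : Convex ℝ A) (hyA : y ∈ A) (hyA' : y' ∈ A) :
    ∃ x ∈ A, inner ℝ a x = σ ∧ f x = ν := by
  have hden : 0 < f y' - f y := by linarith
  set τ : ℝ := (ν - f y) / (f y' - f y) with hτ
  have hτ0 : 0 ≤ τ := div_nonneg (by linarith) hden.le
  have hτ1 : τ ≤ 1 := by
    rw [hτ, div_le_one hden]; linarith
  refine ⟨(1 - τ) • y + τ • y', hA hyA hyA' (by linarith) hτ0 (by ring), ?_, ?_⟩
  · rw [inner_add_right, inner_smul_right, inner_smul_right, hy, hy']; ring
  · have h3 : f ((1 - τ) • y + τ • y') = f y + τ * (f y' - f y) := by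
      rw [map_add, map_smul, map_smul, smul_eq_mul, smul_eq_mul]; ring
    rw [h3, hτ, div_mul_cancel₀ _ hden.ne']
    ring

/-- The line cut out of the plane `⟨a, x⟩ = σ` by `f x = ν` meets every convex set with points on
both sides. -/
theorem line_of_sep {a : E3} (ha : a ≠ 0) (σ : ℝ) (f : E3 →L[ℝ] ℝ) (ν : ℝ) :
    ∃ x d : E3, (d ≠ 0 ∧ inner ℝ a x = σ ∧ inner ℝ a d = (0 : ℝ)) ∧ ∀ A : Set E3, Convex ℝ A → ∀ y ∈ A, ∀ y' ∈ A, inner ℝ a y = σ →
      inner ℝ a y' = σ → f y < ν → ν ≤ f y' → ∃ t : ℝ, x + t • d ∈ A := by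
  by_cases h : ∃ y y' : E3, inner ℝ a y = σ ∧ inner ℝ a y' = σ ∧ f y < ν ∧ ν ≤ f y'
  · obtain ⟨y0, y0', h1, h2, h3, h4⟩ := h
    obtain ⟨x, -, hx1, hx2⟩ := crossing f h1 h2 h3 h4 (convex_univ) (Set.mem_univ _)
      (Set.mem_univ _)
    have hWmem : ∀ v : E3, v ∈ LinearMap.ker (phi a) ↔ inner ℝ a v = (0 : ℝ) := by
      intro v
      rw [LinearMap.mem_ker, phi_apply]
    obtain ⟨d, hdW, hd0, -, hspan⟩ := exists_dir (finrank_ker_phi ha) f.toLinearMap
      ⟨y0' - y0, by rw [hWmem, inner_sub_right, h1, h2]; ring, by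
        have : f (y0' - y0) ≠ 0 := by
          rw [map_sub]; exact (by linarith : (0 : ℝ) < f y0' - f y0).ne'
        exact this⟩
    refine ⟨x, d, ⟨hd0, hx1, (hWmem d).mp hdW⟩, ?_⟩
    intro A hA y hy y' hy' hay hay' hfy hfy'
    obtain ⟨w, hwA, hw1, hw2⟩ := crossing f hay hay' hfy hfy' hA hy hy'
    obtain ⟨c, hc⟩ := hspan (w - x) (by rw [hWmem, inner_sub_right, hw1, hx1]; ring) (by
      show f (w - x) = 0
      rw [map_sub, hw2, hx2]; ring)
    refine ⟨c, ?_⟩
    rw [hc]
    simpa using hwA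
  · obtain ⟨v, hv⟩ : ∃ v : LinearMap.ker (phi a), v ≠ 0 := by
      have : Nontrivial (LinearMap.ker (phi a)) :=
        Module.nontrivial_of_finrank_pos (R := ℝ) (by rw [finrank_ker_phi ha]; norm_num)
      exact exists_ne 0
    refine ⟨(σ * (‖a‖ ^ 2)⁻¹) • a, v, ⟨?_, ?_, ?_⟩, ?_⟩
    · intro h0
      exact hv (Subtype.ext h0)
    · have hnorm : (‖a‖ ^ 2 : ℝ) ≠ 0 := by
        have : ‖a‖ ≠ 0 := norm_ne_zero_iff.mpr ha
        positivity
      rw [inner_smul_right, real_inner_self_eq_norm_sq]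
      field_simp
    · have := v.2
      rw [LinearMap.mem_ker, phi_apply] at this
      exact this
    intro A hA y hy y' hy' hay hay' hfy hfy'
    exact absurd ⟨y, y', hay, hay', hfy, hfy'⟩ h

/-- The thread of a convex set through its points in two planes. -/
theorem thread {a e : E3} (hae : inner ℝ a e = (1 : ℝ)) {A : Set E3} (hA : Convex ℝ A)
    {p0 p1 : E3} (hp0 : p0 ∈ A) (hp1 : p1 ∈ A) {s0 s1 : ℝ} (h0 : inner ℝ a p0 = s0)
    (h1 : inner ℝ a p1 = s1) (hlt : s0 < s1) :
    ∃ α β : LinearMap.ker (phi a), (∀ t : ℝ, s0 ≤ t → t ≤ s1 →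
      (α : E3) + t • (β : E3) + t • e ∈ A) ∧ (α : E3) + s0 • (β : E3) + s0 • e = p0 ∧
      (α : E3) + s1 • (β : E3) + s1 • e = p1 := by
  have hWmem : ∀ v : E3, v ∈ LinearMap.ker (phi a) ↔ inner ℝ a v = (0 : ℝ) := by
    intro v
    rw [LinearMap.mem_ker, phi_apply]
  have hδ : s1 - s0 ≠ 0 := by linarith
  have key : ∀ t : ℝ, (p0 - s0 • ((s1 - s0)⁻¹ • (p1 - p0))) + t • ((s1 - s0)⁻¹ • (p1 - p0) - e)
      + t • e = (1 - (t - s0) / (s1 - s0)) • p0 + ((t - s0) / (s1 - s0)) • p1 := by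
    intro t
    module
  refine ⟨⟨p0 - s0 • ((s1 - s0)⁻¹ • (p1 - p0)), ?_⟩, ⟨(s1 - s0)⁻¹ • (p1 - p0) - e, ?_⟩,
    ?_, ?_, ?_⟩
  · rw [hWmem, inner_sub_right, inner_smul_right, inner_smul_right, inner_sub_right, h0, h1]
    field_simp
    ring
  · rw [hWmem, inner_sub_right, inner_smul_right, inner_sub_right, h0, h1, hae]
    field_simp
    ring
  · intro t ht0 ht1
    have hτ0 : 0 ≤ (t - s0) / (s1 - s0) := div_nonneg (by linarith) (by linarith)
    have hτ1 : (t - s0) / (s1 - s0) ≤ 1 := by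
      rw [div_le_one (by linarith)]
      linarith
    show (p0 - s0 • ((s1 - s0)⁻¹ • (p1 - p0))) + t • ((s1 - s0)⁻¹ • (p1 - p0) - e) + t • e ∈ A
    rw [key]
    exact hA hp0 hp1 (by linarith) hτ0 (by ring)
  · show (p0 - s0 • ((s1 - s0)⁻¹ • (p1 - p0))) + s0 • ((s1 - s0)⁻¹ • (p1 - p0) - e) + s0 • e = p0
    rw [key]
    simp
  · show (p0 - s0 • ((s1 - s0)⁻¹ • (p1 - p0))) + s1 • ((s1 - s0)⁻¹ • (p1 - p0) - e) + s1 • e = p1
    rw [key]
    rw [div_self hδ]
    simp

/-- Lines from a certificate: a set `G` of at most three columns with functionals such that every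
row has points on both sides in one of the columns of `G`. -/
theorem three_lines {a : E3} (ha : a ≠ 0) {m n : ℕ} (hn : 0 < n) (A : Fin m → Set E3)
    (hA : ∀ i, Convex ℝ (A i)) (s : Fin n → ℝ) (G : Finset (Fin n)) (hG : G.card ≤ 3)
    (u : Fin n → (E3 →L[ℝ] ℝ)) (ν : Fin n → ℝ)
    (h : ∀ i, ∃ j ∈ G, ∃ y ∈ A i, ∃ y' ∈ A i, inner ℝ a y = s j ∧ inner ℝ a y' = s j ∧
      u j y < ν j ∧ ν j ≤ u j y') :
    ∃ (e : Fin 3 → Fin n) (x d : Fin 3 → E3),
      (∀ k, d k ≠ 0 ∧ inner ℝ a (x k) = s (e k) ∧ inner ℝ a (d k) = (0 : ℝ)) ∧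
        ∀ i, ∃ k, ∃ t : ℝ, x k + t • d k ∈ A i := by
  classical
  choose X D hD hXD using fun j : Fin n => line_of_sep ha (s j) (u j) (ν j)
  -- an enumeration of `G`
  by_cases hm : G.Nonempty
  · obtain ⟨g0, hg0⟩ := hm
    obtain ⟨e, he⟩ : ∃ e : Fin 3 → Fin n, ∀ j ∈ G, ∃ k, e k = j := by
      have hc : Fintype.card G ≤ Fintype.card (Fin 3) := by simpa using hG
      obtain ⟨emb⟩ := Function.Embedding.nonempty_of_card_le hc
      have : Nonempty G := ⟨⟨g0, hg0⟩⟩
      refine ⟨fun k => ((Function.invFun emb k : G) : Fin n), fun j hj => ⟨emb ⟨j, hj⟩, ?_⟩⟩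
      show ((Function.invFun emb (emb ⟨j, hj⟩) : G) : Fin n) = j
      rw [Function.leftInverse_invFun emb.injective]
    refine ⟨e, fun k => X (e k), fun k => D (e k), fun k => hD _, ?_⟩
    intro i
    obtain ⟨j, hj, y, hy, y', hy', h1, h2, h3, h4⟩ := h i
    obtain ⟨k, hk⟩ := he j hj
    refine ⟨k, ?_⟩
    show ∃ t : ℝ, X (e k) + t • D (e k) ∈ A i
    rw [hk]
    exact hXD j (A i) (hA i) y hy y' hy' h1 h2 h3 h4
  · refine ⟨fun _ => ⟨0, hn⟩, fun _ => X ⟨0, hn⟩, fun _ => D ⟨0, hn⟩, fun _ => hD _, ?_⟩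
    intro i
    obtain ⟨j, hj, -⟩ := h i
    exact absurd ⟨j, hj⟩ hm

/-- **Half-parallel theorem, piercing form.** -/
theorem half_parallel {m n : ℕ} (A : Fin m → Set E3) (B : Fin n → Set E3)
    (hA : ∀ i, Convex ℝ (A i)) (hB : ∀ j, Convex ℝ (B j)) (a : E3) (ha : a ≠ 0)
    (s : Fin n → ℝ) (hAB : ∀ i j, ∃ x ∈ A i ∩ B j, inner ℝ a x = s j) :
    (∃ x d : E3, d ≠ 0 ∧ ∀ j, ∃ t : ℝ, x + t • d ∈ B j) ∨
      (∃ (e : Fin 3 → Fin n) (x d : Fin 3 → E3),
        (∀ k, d k ≠ 0 ∧ inner ℝ a (x k) = s (e k) ∧ inner ℝ a (d k) = (0 : ℝ)) ∧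
          ∀ i, ∃ k, ∃ t : ℝ, x k + t • d k ∈ A i) := by
  classical
  rcases Nat.eq_zero_or_pos n with hn | hn
  · subst hn
    exact Or.inl ⟨0, a, ha, fun j => j.elim0⟩
  rcases Nat.eq_zero_or_pos m with hm | hm
  · subst hm
    exact Or.inr (three_lines ha hn A hA s ∅ (by simp) (fun _ => 0) (fun _ => 0)
      (fun i => i.elim0))
  have hNm : Nonempty (Fin m) := ⟨⟨0, hm⟩⟩
  choose p hp hps using hAB
  have hpA : ∀ i j, p i j ∈ A i := fun i j => (hp i j).1
  have hpB : ∀ i j, p i j ∈ B j := fun i j => (hp i j).2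
  have hWmem : ∀ v : E3, v ∈ LinearMap.ker (phi a) ↔ inner ℝ a v = (0 : ℝ) := by
    intro v
    rw [LinearMap.mem_ker, phi_apply]
  have hWfin : finrank ℝ (LinearMap.ker (phi a)) = 2 := finrank_ker_phi ha
  obtain ⟨e, hae⟩ : ∃ e : E3, inner ℝ a e = (1 : ℝ) := by
    refine ⟨(‖a‖ ^ 2)⁻¹ • a, ?_⟩
    have hnorm : (‖a‖ ^ 2 : ℝ) ≠ 0 := by
      have : ‖a‖ ≠ 0 := norm_ne_zero_iff.mpr ha
      positivity
    rw [inner_smul_right, real_inner_self_eq_norm_sq]
    field_simp
  -- the polytopes, moved into the kernel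
  set q : Fin m → Fin n → E3 := fun i j => p i j - s j • e with hq
  have hCB : ∀ j, ∀ w ∈ convexHull ℝ (Set.range fun i => q i j), w + s j • e ∈ B j := by
    intro j w hw
    have hconv : Convex ℝ {w : E3 | w + s j • e ∈ B j} := by
      intro w1 h1 w2 h2 c1 c2 hc1 hc2 hc
      have h3 := hB j h1 h2 hc1 hc2 hc
      show c1 • w1 + c2 • w2 + s j • e ∈ B j
      have h4 : c1 • (w1 + s j • e) + c2 • (w2 + s j • e) = c1 • w1 + c2 • w2 + s j • e := by
        rw [smul_add, smul_add]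
        have : s j • e = c1 • (s j • e) + c2 • (s j • e) := by rw [← add_smul, hc, one_smul]
        nth_rewrite 3 [this]
        abel
      rw [← h4]
      exact h3
    have hsub : convexHull ℝ (Set.range fun i => q i j) ⊆ {w : E3 | w + s j • e ∈ B j} := by
      apply convexHull_min _ hconv
      rintro _ ⟨i, rfl⟩
      show p i j - s j • e + s j • e ∈ B j
      rw [sub_add_cancel]
      exact hpB i j
    exact hsub hw
  -- the two linear families
  set W := LinearMap.ker (phi a) with hW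
  by_cases hall : ∃ z : W × W, ∀ j,
      ((z.1 : E3) + s j • (z.2 : E3)) ∈ convexHull ℝ (Set.range fun i => q i j)
  · obtain ⟨z, hz⟩ := hall
    left
    refine ⟨z.1, e + z.2, ?_, fun j => ⟨s j, ?_⟩⟩
    · intro h
      have h1 : inner ℝ a (e + (z.2 : E3)) = (1 : ℝ) := by
        rw [inner_add_right, hae, (hWmem _).mp z.2.2]; ring
      rw [h, inner_zero_right] at h1
      exact zero_ne_one h1
    · have := hCB j _ (hz j)
      rw [smul_add, add_comm (s j • e), ← add_assoc]
      exact this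
  right
  by_cases hpl : ∀ σ : ℝ, ∃ w : W, ∀ j, s j = σ →
      (w : E3) ∈ convexHull ℝ (Set.range fun i => q i j)
  · -- general case
    obtain ⟨F, u, μ, hF, hu, hμ, hpos⟩ := core_min (P := W × W) (H := E3) (I := Fin m)
      (fun j => W.subtype.comp (LinearMap.fst ℝ W W) + s j • W.subtype.comp (LinearMap.snd ℝ W W))
      q (by
        rintro ⟨z, hz⟩
        exact hall ⟨z, fun j => by simpa using hz j⟩)
    have hF5 : F.card ≤ 5 := by
      have : finrank ℝ (W × W) = 4 := by rw [Module.finrank_prod, hWfin]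
      omega
    have hu' : ∀ α β : W, ∑ j ∈ F, u j ((α : E3) + s j • (β : E3)) = 0 := by
      intro α β
      have := hu (α, β)
      simpa using this
    have hFne : F.Nonempty := by
      rw [Finset.nonempty_iff_ne_empty]
      rintro rfl
      simp at hpos
    obtain ⟨j0, hj0, hmin⟩ := F.exists_min_image s hFne
    obtain ⟨j1, hj1, hmax⟩ := F.exists_max_image s hFne
    have hlt : s j0 < s j1 := by
      by_contra hcon
      push Not at hcon
      obtain ⟨w, hw⟩ := hpl (s j0)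
      have h1 := hu' w 0
      have h2 : ∑ j ∈ F, μ j ≤ ∑ j ∈ F, u j ((w : E3) + s j • ((0 : W) : E3)) := by
        apply Finset.sum_le_sum
        intro j hj
        have hsj : s j = s j0 := le_antisymm ((hmax j hj).trans hcon) (hmin j hj)
        have h3 : (w : E3) + s j • ((0 : W) : E3) = w := by simp
        rw [h3]
        have h4 : convexHull ℝ (Set.range fun i => q i j) ⊆ {x : E3 | μ j ≤ u j x} := by
          apply convexHull_min
          · rintro _ ⟨i, rfl⟩
            exact hμ i j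
          · exact convex_halfSpace_ge (u j).toLinearMap.isLinear (μ j)
        exact h4 (hw j hsj)
      linarith
    have hne : j0 ≠ j1 := by
      rintro rfl
      exact lt_irrefl _ hlt
    refine three_lines ha hn A hA s ((F.erase j0).erase j1) ?_ u (fun j => μ j + s j * u j e) ?_
    · rw [Finset.card_erase_of_mem (Finset.mem_erase.mpr ⟨hne.symm, hj1⟩),
        Finset.card_erase_of_mem hj0]
      omega
    · intro i
      obtain ⟨α, β, h1, h2, h3⟩ := thread hae (hA i) (hpA i j0) (hpA i j1) (hps i j0) (hps i j1) hlt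
      have h4 : ∑ j ∈ F, (u j ((α : E3) + s j • (β : E3)) - μ j) < 0 := by
        rw [Finset.sum_sub_distrib, hu']
        linarith
      have h5 : 0 ≤ u j0 ((α : E3) + s j0 • (β : E3)) - μ j0 := by
        have h6 : (α : E3) + s j0 • (β : E3) = q i j0 := by
          rw [hq]
          simp only
          rw [← h2]
          abel
        rw [h6]
        linarith [hμ i j0]
      have h7 : 0 ≤ u j1 ((α : E3) + s j1 • (β : E3)) - μ j1 := by
        have h6 : (α : E3) + s j1 • (β : E3) = q i j1 := by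
          rw [hq]
          simp only
          rw [← h3]
          abel
        rw [h6]
        linarith [hμ i j1]
      have h8 : ∑ j ∈ (F.erase j0).erase j1, (u j ((α : E3) + s j • (β : E3)) - μ j) < 0 := by
        have e1 := Finset.add_sum_erase F
          (fun j => u j ((α : E3) + s j • (β : E3)) - μ j) hj0
        have e2 := Finset.add_sum_erase (F.erase j0)
          (fun j => u j ((α : E3) + s j • (β : E3)) - μ j) (Finset.mem_erase.mpr ⟨hne.symm, hj1⟩)
        linarith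
      obtain ⟨j, hj, hlt'⟩ := Finset.exists_lt_of_sum_lt (f := fun j =>
        u j ((α : E3) + s j • (β : E3)) - μ j) (g := fun _ => (0 : ℝ))
        (s := (F.erase j0).erase j1) (by simpa using h8)
      have hjF : j ∈ F := Finset.mem_of_mem_erase (Finset.mem_of_mem_erase hj)
      refine ⟨j, hj, (α : E3) + s j • (β : E3) + s j • e, h1 (s j) (hmin j hjF) (hmax j hjF),
        p i j, hpA i j, ?_, hps i j, ?_, ?_⟩
      · rw [inner_add_right, inner_add_right, inner_smul_right, inner_smul_right, hae,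
          (hWmem _).mp α.2, (hWmem _).mp β.2]
        ring
      · rw [map_add, map_smul, smul_eq_mul]
        linarith
      · have h9 := hμ i j
        have h10 : u j (q i j) = u j (p i j) - s j * u j e := by
          rw [hq]
          simp only
          rw [map_sub, map_smul, smul_eq_mul]
        show μ j + s j * u j e ≤ u j (p i j)
        linarith
  · -- one plane with no common point
    push Not at hpl
    obtain ⟨σ, hσ⟩ := hpl
    obtain ⟨F, u, μ, hF, hu, hμ, hpos⟩ := core_min (P := W) (H := E3) (I := Fin m)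
      (J := {j : Fin n // s j = σ}) (fun _ => W.subtype) (fun i j => q i j.1) (by
        rintro ⟨w, hw⟩
        obtain ⟨j, hj, hj'⟩ := hσ w
        exact hj' (hw ⟨j, hj⟩))
    rw [hWfin] at hF
    have hFne : F.Nonempty := by
      rw [Finset.nonempty_iff_ne_empty]
      rintro rfl
      simp at hpos
    obtain ⟨j0, hj0⟩ := hFne
    refine three_lines ha hn A hA s (F.map ⟨Subtype.val, Subtype.val_injective⟩) (by
        rw [Finset.card_map]; omega)
      (fun j => if h : s j = σ then u ⟨j, h⟩ else 0)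
      (fun j => if h : s j = σ then μ ⟨j, h⟩ + s j * u ⟨j, h⟩ e else 0) ?_
    intro i
    have hqW : q i j0.1 ∈ W := by
      rw [hWmem, hq]
      simp only
      rw [inner_sub_right, inner_smul_right, hae, hps]
      ring
    have h1 := hu ⟨q i j0.1, hqW⟩
    have h4 : ∑ j ∈ F, (u j (q i j0.1) - μ j) < 0 := by
      rw [Finset.sum_sub_distrib]
      have : ∑ j ∈ F, u j (q i j0.1) = 0 := h1
      linarith
    obtain ⟨j, hj, hlt'⟩ := Finset.exists_lt_of_sum_lt (f := fun j =>
      u j (q i j0.1) - μ j) (g := fun _ => (0 : ℝ)) (s := F) (by simpa using h4)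
    refine ⟨j.1, ?_, p i j0.1, hpA i j0.1, p i j.1, hpA i j.1, ?_, hps i j.1, ?_, ?_⟩
    · rw [Finset.mem_map]
      exact ⟨j, hj, rfl⟩
    · rw [hps, j0.2, j.2]
    · rw [dif_pos j.2, dif_pos j.2]
      have h10 : u j (q i j0.1) = u j (p i j0.1) - s j0.1 * u j e := by
        rw [hq]
        simp only
        rw [map_sub, map_smul, smul_eq_mul]
      have h11 : s j0.1 = s j.1 := by rw [j0.2, j.2]
      rw [h11] at h10
      show u j (p i j0.1) < μ j + s j.1 * u j e
      linarith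
    · rw [dif_pos j.2, dif_pos j.2]
      have h9 := hμ i j
      have h10 : u j (q i j.1) = u j (p i j.1) - s j.1 * u j e := by
        rw [hq]
        simp only
        rw [map_sub, map_smul, smul_eq_mul]
      show μ j + s j.1 * u j e ≤ u j (p i j.1)
      linarith

/-- **Half-parallel theorem**, with the count: one of the three lines meets a third of the sets. -/
theorem half_parallel' {m n : ℕ} (A : Fin m → Set E3) (B : Fin n → Set E3)
    (hA : ∀ i, Convex ℝ (A i)) (hB : ∀ j, Convex ℝ (B j)) (a : E3) (ha : a ≠ 0)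
    (s : Fin n → ℝ) (hAB : ∀ i j, ∃ x ∈ A i ∩ B j, inner ℝ a x = s j) :
    (∃ x d : E3, d ≠ 0 ∧ ∀ j, ∃ t : ℝ, x + t • d ∈ B j) ∨
      (∃ (e : Fin 3 → Fin n) (x d : Fin 3 → E3),
        (∀ k, d k ≠ 0 ∧ inner ℝ a (x k) = s (e k) ∧ inner ℝ a (d k) = (0 : ℝ)) ∧
          (∀ i, ∃ k, ∃ t : ℝ, x k + t • d k ∈ A i) ∧
            ∃ k, m ≤ 3 * Nat.card {i : Fin m // ∃ t : ℝ, x k + t • d k ∈ A i}) := by
  classical
  rcases half_parallel A B hA hB a ha s hAB with h | ⟨e, x, d, h1, h2⟩
  · exact Or.inl h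
  refine Or.inr ⟨e, x, d, h1, h2, ?_⟩
  by_contra hcon
  push Not at hcon
  have h3 : (Finset.univ : Finset (Fin m)) ⊆ Finset.univ.biUnion fun k : Fin 3 =>
      Finset.univ.filter fun i : Fin m => ∃ t : ℝ, x k + t • d k ∈ A i := by
    intro i _
    obtain ⟨k, hk⟩ := h2 i
    rw [Finset.mem_biUnion]
    exact ⟨k, Finset.mem_univ _, Finset.mem_filter.mpr ⟨Finset.mem_univ _, hk⟩⟩
  have h4 := (Finset.card_le_card h3).trans Finset.card_biUnion_le
  rw [Finset.card_univ, Fintype.card_fin] at h4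
  have h5 : ∀ k : Fin 3, 3 * (Finset.univ.filter fun i : Fin m =>
      ∃ t : ℝ, x k + t • d k ∈ A i).card < m := by
    intro k
    have := hcon k
    rwa [Nat.card_eq_fintype_card, Fintype.card_subtype] at this
  rw [Fin.sum_univ_three] at h4
  have := h5 0
  have := h5 1
  have := h5 2
  omega

end

end Pool.Agent.HPL99
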